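import Pool.Agent.L0h20.SY.Stm

/-!
# Project SY, module PER
-/

set_option autoImplicit false

namespace Pool.Agent.L0h66.SY

open Pool.Agent.L0h20.SY

theorem t_PER : S_PER := by
  intro p l J Y _ _ hp e h c hc he hne
  have : Fact p.Prime := ⟨hp⟩
  -- the part of the order prime to `p`
  have ho : orderOf e ≠ 0 := (orderOf_pos e).ne'
  obtain ⟨a, b, hb, hab⟩ := Nat.exists_eq_pow_mul_and_not_dvd ho p hp.ne_one
  have hcop : Nat.Coprime b (p ^ l) := by
    apply Nat.Coprime.pow_right
    exact ((Nat.Prime.coprime_iff_not_dvd hp).2 hb).symm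
  have hpow : (e ^ b) ^ p ^ a = 1 := by
    rw [← pow_mul, mul_comm, ← hab]
    exact pow_orderOf_eq_one e
  have hck : ∀ (k : ℕ) (j : J), h ((e ^ k) j) = (c ^ k) (h j) := by
    intro k
    induction k with
    | zero => intro j; simp
    | succ k ih =>
      intro j
      rw [pow_succ', pow_succ', Equiv.Perm.mul_apply, Equiv.Perm.mul_apply, he, ih]
  have hfix : ∀ j, (e ^ b) j ≠ j := by
    intro j hj
    have h1 := hck b j
    rw [hj] at h1
    -- a multiple of `b`
    obtain ⟨s, hs⟩ : ∃ s : ℕ, b * s ≡ 1 [MOD p ^ l] := by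
      by_cases hl : p ^ l = 1
      · exact ⟨0, by rw [hl]; exact Nat.modEq_one⟩
      · obtain ⟨s, -, hs⟩ := Nat.exists_mul_mod_eq_one_of_coprime hcop
          (by have := Nat.one_le_pow l p hp.pos; omega)
        refine ⟨s, ?_⟩
        unfold Nat.ModEq
        rw [hs, Nat.mod_eq_of_lt]
        have := Nat.one_le_pow l p hp.pos
        omega
    have h2 : ∀ k : ℕ, ((c ^ b) ^ k) (h j) = h j := by
      intro k
      induction k with
      | zero => simp
      | succ k ih => rw [pow_succ', Equiv.Perm.mul_apply, ih, ← h1]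
    have h3 : c ^ (b * s) = c := by
      have h4 : c ^ (b * s) = c ^ 1 := by
        rw [pow_eq_pow_iff_modEq]
        exact hs.of_dvd (orderOf_dvd_of_pow_eq_one hc)
      rw [h4, pow_one]
    apply hne j
    conv_lhs => rw [← h3, pow_mul]
    exact h2 s
  set f : Function.End J := fun j => (e ^ b) j with hf
  have hfk : ∀ k : ℕ, f ^ k = fun j => ((e ^ b) ^ k) j := by
    intro k
    induction k with
    | zero => rfl
    | succ k ih =>
      rw [pow_succ', ih]
      funext j
      rw [pow_succ']
      rfl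
  have hf1 : f ^ p ^ a = 1 := by
    rw [hfk, hpow]
    rfl
  have hmod := Equiv.Perm.card_fixedPoints_modEq (p := p) (n := a) (f := f) hf1
  have h0 : Fintype.card f.fixedPoints = 0 := by
    rw [Fintype.card_eq_zero_iff]
    refine ⟨fun j => hfix j.1 j.2⟩
  rw [h0] at hmod
  exact (Nat.modEq_zero_iff_dvd).1 hmod

end Pool.Agent.L0h66.SY
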